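import Pool.Agent.TH116.AF.Basic

/-!
# Asymptotic Fermat over number fields: fields with a cyclic closure of two-power degree are enough
-/

open Polynomial

namespace Pool.Agent.Results.MP_ef6a16_nt.CyclicTwoPowerClosure

open Pool.Agent.TH116.AF

/-- Asymptotic Fermat holds over `K`. -/
def AsymptoticFermat (K : Type) [Field K] : Prop :=
  ∃ B : ℕ, ∀ p : ℕ, p.Prime → B < p →
    ∀ a b c : K, a ≠ 0 → b ≠ 0 → c ≠ 0 → a ^ p + b ^ p + c ^ p ≠ 0

/-- `q` or `-3q` is a square in `L` for all `q` in `S`; all polynomials of odd degree in `P` have a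
root in `L`; `L` has a cyclic extension `F` of two-power degree which contains a primitive cube root
of unity and is Galois over `ℚ`. -/
def IsNearlyMaximal (L : Type) [Field L] [NumberField L] (S : Finset ℚ) (P : Finset ℚ[X]) : Prop :=
  (∀ q ∈ S, (∃ x : L, x ^ 2 = algebraMap ℚ L q) ∨ ∃ x : L, x ^ 2 = -3 * algebraMap ℚ L q) ∧
  (∀ f ∈ P, Odd f.natDegree → ∃ x : L, aeval x f = 0) ∧
  ∃ (F : Type) (_ : Field F) (_ : NumberField F) (_ : Algebra L F), IsGalois ℚ F ∧
    (∃ ω : F, IsPrimitiveRoot ω 3) ∧ IsCyclic (F ≃ₐ[L] F) ∧ ∃ a : ℕ, Nat.card (F ≃ₐ[L] F) = 2 ^ a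

lemma AsymptoticFermat.of_algebra {K L : Type} [Field K] [Field L] [Algebra K L]
    (h : AsymptoticFermat L) : AsymptoticFermat K := by
  obtain ⟨B, hB⟩ := h
  refine ⟨B, fun p hp hlt a b c ha hb hc h0 => ?_⟩
  have hinj := (algebraMap K L).injective
  refine hB p hp hlt (algebraMap K L a) (algebraMap K L b) (algebraMap K L c) ?_ ?_ ?_ ?_
  · exact (map_ne_zero_iff _ hinj).2 ha
  · exact (map_ne_zero_iff _ hinj).2 hb
  · exact (map_ne_zero_iff _ hinj).2 hc
  · rw [← map_pow, ← map_pow, ← map_pow, ← map_add, ← map_add, h0, map_zero]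

lemma primitive_iff {K : Type} [Field K] [CharZero K] (y : K) :
    IsPrimitiveRoot y 3 ↔ y ^ 2 + y + 1 = 0 := by
  constructor
  · intro h
    have h1 := h.pow_eq_one
    have h2 : y ≠ 1 := h.ne_one (by norm_num)
    have h3 : (y - 1) * (y ^ 2 + y + 1) = 0 := by linear_combination h1
    rcases mul_eq_zero.1 h3 with h4 | h4
    · exact absurd (sub_eq_zero.1 h4) h2
    · exact h4
  · intro h
    have h1 : y ^ 3 = 1 := by linear_combination (y - 1) * h
    have h2 : y ≠ 1 := by
      rintro rfl
      norm_num at h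
    have h3 : orderOf y = 3 := orderOf_eq_prime h1 h2
    rw [← h3]
    exact IsPrimitiveRoot.orderOf y

/-- The field `L` of the theorem, for a number field `K`. -/
lemma exists_nearlyMaximal (S : Finset ℚ) (P : Finset ℚ[X]) (K : Type) [Field K] [NumberField K]
    (hK : ¬ ∃ ω : K, IsPrimitiveRoot ω 3) :
    ∃ (L : Type) (_ : Field L) (_ : NumberField L) (_ : Algebra K L),
      (¬ ∃ ω : L, IsPrimitiveRoot ω 3) ∧ IsNearlyMaximal L S P := by
  classical
  set g : K[X] := (X ^ 2 + X + 1) * ((∏ q ∈ S, (X ^ 2 - C (algebraMap ℚ K q))) *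
    ∏ f ∈ P.filter (fun f => Odd f.natDegree), f.map (algebraMap ℚ K)) with hg
  have hquad : (X ^ 2 + X + 1 : K[X]) ≠ 0 := by
    intro h
    have := congrArg (eval 0) h
    simp at this
  have hg0 : g ≠ 0 := by
    rw [hg]
    refine mul_ne_zero hquad (mul_ne_zero (Finset.prod_ne_zero_iff.2 fun q _ => ?_)
      (Finset.prod_ne_zero_iff.2 fun f hf => ?_))
    · exact X_pow_sub_C_ne_zero (by norm_num) _
    · have hodd := (Finset.mem_filter.1 hf).2
      rw [Polynomial.map_ne_zero_iff (algebraMap ℚ K).injective]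
      rintro rfl
      simp at hodd
  obtain ⟨F, _, _, _, hgal, hs⟩ := exists_galois K g
  have hgF : g.map (algebraMap K F) ≠ 0 :=
    (Polynomial.map_ne_zero_iff (algebraMap K F).injective).2 hg0
  have hdvd : ∀ f : K[X], f ∣ g → (f.map (algebraMap K F)).Splits := fun f hf =>
    hs.of_dvd hgF (Polynomial.map_dvd (algebraMap K F) hf)
  have hKF : IsGalois K F := IsGalois.tower_top_of_isGalois ℚ K F
  have hfinKF : FiniteDimensional K F := Module.Finite.of_restrictScalars_finite ℚ K F
  -- a cube root of unity in `F`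
  obtain ⟨ω, hω⟩ : ∃ ω : F, ω ^ 2 + ω + 1 = 0 := by
    have h1 : ((X ^ 2 + X + 1 : K[X]).map (algebraMap K F)).Splits :=
      hdvd _ (dvd_mul_right _ _)
    obtain ⟨x, hx⟩ := h1.exists_eval_eq_zero (by
      have : ((X ^ 2 + X + 1 : K[X]).map (algebraMap K F)) = X ^ 2 + X + 1 := by simp
      rw [this]
      have h2 : (X ^ 2 + X + 1 : F[X]).degree = 2 := by compute_degree!
      rw [h2]
      norm_num)
    refine ⟨x, ?_⟩
    simpa using hx
  have hωK : ω ∉ Set.range (algebraMap K F) := by
    rintro ⟨y, hy⟩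
    refine hK ⟨y, (primitive_iff y).2 ?_⟩
    apply (algebraMap K F).injective
    rw [map_add, map_add, map_pow, map_one, map_zero, hy]
    exact hω
  rw [IsGalois.mem_range_algebraMap_iff_fixed] at hωK
  rw [not_forall] at hωK
  obtain ⟨σ, hσ⟩ := hωK
  -- `σ` and its odd powers map `ω` to the other root
  have hσω : ∀ τ : F ≃ₐ[K] F, τ ω = ω ∨ τ ω = -1 - ω := by
    intro τ
    have h1 : (τ ω) ^ 2 + τ ω + 1 = 0 := by
      rw [← map_pow, ← map_add, ← map_one τ, ← map_add, hω, map_zero]
    have h2 : (τ ω - ω) * (τ ω - (-1 - ω)) = 0 := by linear_combination h1 - hω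
    rcases mul_eq_zero.1 h2 with h3 | h3
    · exact Or.inl (sub_eq_zero.1 h3)
    · exact Or.inr (sub_eq_zero.1 h3)
  have hσ1 : σ ω = -1 - ω := (hσω σ).resolve_left hσ
  have hσ2 : (σ ^ 2) ω = ω := by
    rw [pow_two, AlgEquiv.mul_apply, hσ1, map_sub, map_neg, map_one, hσ1]
    ring
  have hσ2k : ∀ k : ℕ, ((σ ^ 2) ^ k) ω = ω := by
    intro k
    induction k with
    | zero => simp
    | succ k ih => rw [pow_succ, AlgEquiv.mul_apply, hσ2, ih]
  have hpos : orderOf σ ≠ 0 := (orderOf_pos σ).ne'
  obtain ⟨a, m, hm, hn⟩ := Nat.exists_eq_two_pow_mul_odd hpos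
  set τ := σ ^ m with hτ
  have hτω : τ ω = -1 - ω := by
    obtain ⟨k, hk⟩ := hm
    rw [hτ, hk, pow_succ, AlgEquiv.mul_apply, hσ1, pow_mul, map_sub, map_neg, map_one, hσ2k]
  have hω2 : (-1 - ω : F) ≠ ω := by
    rw [← hσ1]
    exact hσ
  have hord : orderOf τ = 2 ^ a := by
    rw [hτ, orderOf_pow_of_dvd (Nat.pos_of_ne_zero (by rintro rfl; simp at hm)).ne'
      ⟨2 ^ a, by rw [hn]; ring⟩, hn]
    exact Nat.mul_div_cancel _ (Nat.pos_of_ne_zero (by rintro rfl; simp at hm))
  let L := IntermediateField.fixedField (Subgroup.zpowers τ)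
  have hLmem : ∀ x : F, τ x = x → x ∈ L := by
    intro x hx
    rw [IntermediateField.mem_fixedField_iff]
    intro f hf
    have h1 : Subgroup.zpowers τ ≤ MulAction.stabilizer (F ≃ₐ[K] F) x := by
      rw [Subgroup.zpowers_le]
      exact hx
    exact h1 hf
  have hLfix : ∀ x ∈ L, τ x = x := by
    intro x hx
    exact (IntermediateField.mem_fixedField_iff _ _).1 hx τ (Subgroup.mem_zpowers τ)
  have hnfL : NumberField L := NumberField.of_module_finite K L
  -- the Galois group of `F / L`
  have hfix : L.fixingSubgroup = Subgroup.zpowers τ :=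
    IntermediateField.fixingSubgroup_fixedField (Subgroup.zpowers τ)
  let e : Subgroup.zpowers τ ≃* (F ≃ₐ[L] F) :=
    (MulEquiv.subgroupCongr hfix.symm).trans (IntermediateField.fixingSubgroupEquiv L)
  have hcyc : IsCyclic (F ≃ₐ[L] F) := isCyclic_of_surjective e e.surjective
  have hcard : Nat.card (F ≃ₐ[L] F) = 2 ^ a := by
    rw [← Nat.card_congr e.toEquiv, Nat.card_zpowers, hord]
  have hLF : IsGalois L F := IsGalois.tower_top_of_isGalois K L F
  have hfinrank : Module.finrank L F = 2 ^ a := by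
    rw [← IsGalois.card_aut_eq_finrank L F, hcard]
  refine ⟨L, inferInstance, hnfL, inferInstance, ?_, ?_, ?_, ?_⟩
  · -- no cube root of unity in `L`
    rintro ⟨y, hy⟩
    have h1 := (primitive_iff y).1 hy
    have h2 : (y : F) ^ 2 + y + 1 = 0 := by
      have := congrArg (algebraMap L F) h1
      rw [map_add, map_add, map_pow, map_one, map_zero] at this
      exact this
    have h3 : ((y : F) - ω) * ((y : F) - (-1 - ω)) = 0 := by linear_combination h2 - hω
    have h4 := hLfix y y.2
    rcases mul_eq_zero.1 h3 with h5 | h5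
    · rw [sub_eq_zero.1 h5, hτω] at h4
      exact hω2 h4
    · rw [sub_eq_zero.1 h5, map_sub, map_neg, map_one, hτω] at h4
      apply hω2
      linear_combination -h4
  · -- square roots
    intro q hq
    have h1 : ((X ^ 2 - C (algebraMap ℚ K q) : K[X]).map (algebraMap K F)).Splits :=
      hdvd _ (((Finset.dvd_prod_of_mem _ hq).mul_right _).mul_left _)
    obtain ⟨r, hr⟩ := h1.exists_eval_eq_zero (by
      rw [degree_map, degree_X_pow_sub_C (by norm_num)]
      norm_num)
    have hr2 : r ^ 2 = algebraMap ℚ F q := by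
      have h2 : r ^ 2 - algebraMap K F (algebraMap ℚ K q) = 0 := by simpa using hr
      rw [sub_eq_zero] at h2
      rw [h2, ← IsScalarTower.algebraMap_apply ℚ K F]
    have hτr : (τ r - r) * (τ r + r) = 0 := by
      have h3 : (τ r) ^ 2 = r ^ 2 := by
        rw [← map_pow, hr2]
        have : algebraMap ℚ F q = algebraMap K F (algebraMap ℚ K q) :=
          IsScalarTower.algebraMap_apply ℚ K F q
        rw [this, AlgEquiv.commutes]
      linear_combination h3
    rcases mul_eq_zero.1 hτr with h4 | h4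
    · left
      refine ⟨⟨r, hLmem r (sub_eq_zero.1 h4)⟩, ?_⟩
      apply (algebraMap L F).injective
      rw [map_pow, ← IsScalarTower.algebraMap_apply ℚ L F]
      exact hr2
    · right
      have hs : τ ((2 * ω + 1) * r) = (2 * ω + 1) * r := by
        rw [map_mul, map_add, map_mul, map_one, hτω]
        have h5 : τ r = -r := by linear_combination h4
        rw [h5, map_ofNat]
        ring
      refine ⟨⟨(2 * ω + 1) * r, hLmem _ hs⟩, ?_⟩
      apply (algebraMap L F).injective
      rw [map_pow, map_mul, ← IsScalarTower.algebraMap_apply ℚ L F, map_neg, map_ofNat]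
      show ((2 * ω + 1) * r) ^ 2 = _
      rw [← hr2]
      linear_combination (4 * r ^ 2) * hω
  · -- polynomials of odd degree
    intro f hf hodd
    have h1 : ((f.map (algebraMap ℚ K)).map (algebraMap K F)).Splits :=
      hdvd _ (((Finset.dvd_prod_of_mem (fun f : ℚ[X] => f.map (algebraMap ℚ K))
        (Finset.mem_filter.2 ⟨hf, hodd⟩)).mul_left _).mul_left _)
    have h2 : ((f.map (algebraMap ℚ L)).map (algebraMap L F)).Splits := by
      rw [Polynomial.map_map, ← IsScalarTower.algebraMap_eq ℚ L F]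
      rw [Polynomial.map_map, ← IsScalarTower.algebraMap_eq ℚ K F] at h1
      exact h1
    obtain ⟨x, hx⟩ := exists_root_of_odd hfinrank (f.map (algebraMap ℚ L))
      (by rw [natDegree_map]; exact hodd) h2
    refine ⟨x, ?_⟩
    rwa [aeval_map_algebraMap] at hx
  · exact ⟨F, inferInstance, inferInstance, inferInstance, hgal, ⟨ω, (primitive_iff ω).2 hω⟩, hcyc,
      a, hcard⟩

/-- Asymptotic Fermat holds over all number fields without a primitive cube root of unity if and only
if it holds over those which are nearly maximal for the given finite sets. -/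
theorem result (S : Finset ℚ) (P : Finset ℚ[X]) :
    (∀ (K : Type) [Field K] [NumberField K], (¬ ∃ ω : K, IsPrimitiveRoot ω 3) →
      AsymptoticFermat K) ↔
    ∀ (L : Type) [Field L] [NumberField L], (¬ ∃ ω : L, IsPrimitiveRoot ω 3) →
      IsNearlyMaximal L S P → AsymptoticFermat L := by
  constructor
  · intro h L _ _ hL _
    exact h L hL
  · intro h K _ _ hK
    obtain ⟨L, _, _, _, hL, hmax⟩ := exists_nearlyMaximal S P K hK
    exact (h L hL hmax).of_algebra

end Pool.Agent.Results.MP_ef6a16_nt.CyclicTwoPowerClosure
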